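import Pool.Agent.H721R3.SOS.Total

/-!
# One square plus a binomial has linearly many real roots

If all but one of the squares in a representation `f = ∑ c i * p i ^ 2` add up to a polynomial with
at most two monomials, then the number of distinct real roots of `f` is at most eleven times the
support-sum. More generally, `c g ^ 2 + (a X ^ α + b X ^ (α + γ)) q(X ^ γ) ^ 2` has at most
`8 |g|₀ + 6 deg q + 3` distinct real roots.
-/

set_option autoImplicit false

namespace Pool.Agent.Results.MP_f72d10_lc.OneSquarePlusBinomial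

open Polynomial

theorem result :
    (∀ (c a b : ℝ) (α γ : ℕ) (g q : ℝ[X]), 0 < γ →
      C c * g ^ 2 + (C a * X ^ α + C b * X ^ (α + γ)) * (q.comp (X ^ γ)) ^ 2 ≠ 0 →
      (C c * g ^ 2 + (C a * X ^ α + C b * X ^ (α + γ)) *
        (q.comp (X ^ γ)) ^ 2).roots.toFinset.card ≤
        8 * g.support.card + 6 * q.natDegree + 3) ∧
    ∀ (ι : Type) [DecidableEq ι] (s : Finset ι) (c : ι → ℝ) (p : ι → ℝ[X]) (j : ι), j ∈ s →
      (∑ i ∈ s.erase j, C (c i) * p i ^ 2).support.card ≤ 2 →
      (∑ i ∈ s, C (c i) * p i ^ 2) ≠ 0 →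
      (∑ i ∈ s, C (c i) * p i ^ 2).roots.toFinset.card ≤ 8 * (p j).support.card + 3 ∧
      (∑ i ∈ s, C (c i) * p i ^ 2).roots.toFinset.card ≤ 11 * ∑ i ∈ s, (p i).support.card :=
  ⟨fun c a b α γ g q hγ hf => H721SOS.total_bound c a b α γ hγ g q hf,
    fun ι _ s c p j hj h2 hne => H721SOS.sos_bound ι s c p j hj h2 hne⟩

end Pool.Agent.Results.MP_f72d10_lc.OneSquarePlusBinomial
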